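import Mathlib

/-!
# Project LN, piece (L): the computation of the local lemma
-/

set_option autoImplicit false
set_option linter.overlappingInstances false

namespace Pool.Agent.T9h41.LN

theorem loc_core (A A' L D D' : Type) [AddCommGroup A] [AddCommGroup A'] [AddCommGroup L]
    [Group D] [Group D'] [DistribMulAction D A] [DistribMulAction D' A'] [DistribMulAction D L]
    [DistribMulAction D' L] (res : D' →* D) (hres : ∀ (g : D') (x : L), g • x = res g • x)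
    (ι : A →+ A') (hι : ∀ (g : D') (x : A), g • ι x = ι (res g • x)) (r m : ℕ) (hm0 : m ≠ 0)
    (hco : Nat.Coprime m r) (W : Subgroup D) (W' : Set D') (hW' : ∀ w ∈ W', res w ∈ W)
    (S : AddSubgroup A) (S' : AddSubgroup A') (hS' : ∀ x ∈ S, ι x ∈ S') (v' : A' →+ ℤ)
    (hv : ∀ (g : D') (x : A'), v' (g • x) = v' x) (hvS : ∀ x ∈ S', v' x = 0) (ν : A')
    (hν : v' ν = r) (hνw : ∀ w ∈ W', w • ν = ν) (hdiv : ∀ x : A, (m : ℤ) ∣ v' (ι x))
    (c : D → L →+ A) (A1 A2 A3 : L →+ A)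
    (h1 : ∀ (g : D) (x : L), m • c g x - (g • A1 (g⁻¹ • x) - A1 x) ∈ S)
    (h2 : ∀ w ∈ W, ∀ x : L, r • c w x = w • A2 (w⁻¹ • x) - A2 x)
    (h3 : ∀ (g : D) (x : L), m • (r • c g x - (g • A2 (g⁻¹ • x) - A2 x)) =
      g • A3 (g⁻¹ • x) - A3 x) :
    ∃ a' : L →+ A',
      (∀ (g : D') x, v' (ι (c (res g) x) - (g • a' (g⁻¹ • x) - a' x)) = 0) ∧
      ∀ w ∈ W', ∀ x, ι (c (res w) x) - (w • a' (w⁻¹ • x) - a' x) ∈ S' := by
  have hm0' : (m : ℤ) ≠ 0 := by exact_mod_cast hm0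
  obtain ⟨α, β, hαβ⟩ : ∃ α β : ℤ, α * m + β * (r : ℤ) ^ 2 = 1 := by
    have h4 : IsCoprime (m : ℤ) ((r ^ 2 : ℕ) : ℤ) := Nat.isCoprime_iff_coprime.2 (hco.pow_right 2)
    obtain ⟨α, β, h⟩ := h4
    exact ⟨α, β, by push_cast at h; exact h⟩
  let n : L →+ ℤ :=
    { toFun := fun x => v' (ι (A3 x)) / m
      map_zero' := by simp
      map_add' := fun x y => by
        rw [map_add, map_add, map_add, Int.add_ediv_of_dvd_left (hdiv _)] }
  have hn : ∀ x, (m : ℤ) * n x = v' (ι (A3 x)) := fun x => Int.mul_ediv_cancel' (hdiv _)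
  let a' : L →+ A' :=
    { toFun := fun x => α • ι (A1 x) + β • ((r : ℤ) • ι (A2 x) + n x • ν)
      map_zero' := by simp
      map_add' := fun x y => by
        simp only [map_add, smul_add, add_smul]
        abel }
  have ha' : ∀ x, a' x = α • ι (A1 x) + β • ((r : ℤ) • ι (A2 x) + n x • ν) := fun x => rfl
  have gz : ∀ (g : D') (k : ℤ) (z : A'), g • (k • z) = k • (g • z) := fun g k z =>
    map_zsmul (DistribSMul.toAddMonoidHom A' g) k z
  have hinv : ∀ (g : D') (x : L), g⁻¹ • x = (res g)⁻¹ • x := fun g x => by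
    rw [hres, map_inv]
  -- the coboundary of `a'`
  have hcob : ∀ (g : D') (x : L), g • a' (g⁻¹ • x) - a' x =
      α • (g • ι (A1 (g⁻¹ • x)) - ι (A1 x)) +
        β • ((r : ℤ) • (g • ι (A2 (g⁻¹ • x)) - ι (A2 x)) +
          (n (g⁻¹ • x) • (g • ν) - n x • ν)) := by
    intro g x
    rw [ha', ha', smul_add, gz, gz, smul_add, gz, gz]
    generalize g • ι (A1 (g⁻¹ • x)) = p1
    generalize g • ι (A2 (g⁻¹ • x)) = p2
    generalize g • ν = p3
    module
  have E1 : ∀ (g : D') (x : L),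
      (m : ℤ) • ι (c (res g) x) - (g • ι (A1 (g⁻¹ • x)) - ι (A1 x)) ∈ S' := by
    intro g x
    have h4 := hS' _ (h1 (res g) x)
    rw [map_sub, map_nsmul, map_sub, ← hι, ← hinv] at h4
    rwa [natCast_zsmul]
  have E3 : ∀ (g : D') (x : L), (r : ℤ) * v' (ι (c (res g) x)) -
      v' (g • ι (A2 (g⁻¹ • x)) - ι (A2 x)) = n (g⁻¹ • x) - n x := by
    intro g x
    have h4 := congrArg (fun z => v' (ι z)) (h3 (res g) x)
    simp only [map_nsmul, map_sub] at h4
    rw [← hι, ← hι, ← hinv, hv, hv, ← hn, ← hn, nsmul_eq_mul, nsmul_eq_mul] at h4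
    rw [map_sub, hv]
    apply mul_left_cancel₀ hm0'
    rw [h4]
    ring
  refine ⟨a', fun g x => ?_, fun w hw x => ?_⟩
  · have h4 := hvS _ (E1 g x)
    rw [map_sub, map_zsmul, smul_eq_mul] at h4
    have h5 := E3 g x
    rw [hcob]
    generalize g • ι (A1 (g⁻¹ • x)) - ι (A1 x) = P at h4 ⊢
    generalize g • ι (A2 (g⁻¹ • x)) - ι (A2 x) = Q at h5 ⊢
    generalize ι (c (res g) x) = X at h4 h5 ⊢
    simp only [map_add, map_sub, map_zsmul, hv, hν, smul_eq_mul]
    have h6 : v' P = (m : ℤ) * v' X := by linarith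
    have h7 : v' Q = (r : ℤ) * v' X - (n (g⁻¹ • x) - n x) := by linarith
    rw [h6, h7]
    linear_combination (-v' X) * hαβ
  · have h4 := h2 (res w) (hW' w hw) x
    have h5 : (r : ℤ) • ι (c (res w) x) = w • ι (A2 (w⁻¹ • x)) - ι (A2 x) := by
      have h6 := congrArg ι h4
      rw [map_nsmul, map_sub, ← hι, ← hinv] at h6
      rw [natCast_zsmul]
      exact h6
    have h6 : n (w⁻¹ • x) - n x = 0 := by
      rw [← E3 w x, ← h5, map_zsmul, smul_eq_mul, sub_self]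
    have h7 : ι (c (res w) x) - (w • a' (w⁻¹ • x) - a' x) =
        α • ((m : ℤ) • ι (c (res w) x) - (w • ι (A1 (w⁻¹ • x)) - ι (A1 x))) := by
      rw [hcob, hνw w hw, ← sub_smul, h6, zero_smul, add_zero, ← h5]
      have h8 : ι (c (res w) x) = (α * m + β * (r : ℤ) ^ 2) • ι (c (res w) x) := by
        rw [hαβ, one_smul]
      nth_rewrite 1 [h8]
      generalize w • ι (A1 (w⁻¹ • x)) = p1
      module
    rw [h7]
    exact S'.zsmul_mem (E1 w x) α

end Pool.Agent.T9h41.LN
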