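import Pool.Agent.T9h3.LN.Spec3
import Pool.Agent.T9h41.LN.LocA

/-!
# Project LN, piece (L): the local lemma
-/

set_option autoImplicit false
set_option linter.overlappingInstances false

namespace Pool.Agent.T9h41.LN

open Pool.Agent.T9h3.LN

theorem loc : S_Tr2 → S_Loc := by
  intro hT A A' L D D' _ _ _ _ _ _ _ _ _ _ res hres ι hι r W _ hr hW hco W' hW' S hS S' hS' v' hv
    hvS ν hν hνw hdiv c hc a ha
  obtain ⟨A1, A2, A3, h1, h2, h3⟩ := hT A L D r W hW S hS c hc a ha
  exact loc_core A A' L D D' res hres ι hι r W.index Subgroup.index_ne_zero_of_finite hco W W' hW'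
    S S' hS' v' hv hvS ν hν hνw hdiv c A1 A2 A3 h1 h2 h3

end Pool.Agent.T9h41.LN
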